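import Mathlib

namespace Pool.Agent.Lib.MP_c54d0a_an

open Real

/-- The kernel of the Riemann Xi function; the index `n + 1` runs over the positive integers. -/
noncomputable def Phi (t : ℝ) : ℝ :=
  ∑' n : ℕ, (2 * ((n : ℝ) + 1) ^ 4 * π ^ 2 * exp (9 * t) - 3 * ((n : ℝ) + 1) ^ 2 * π * exp (5 * t)) *
    exp (-(((n : ℝ) + 1) ^ 2 * π * exp (4 * t)))

/-- The truncated cosine transform. -/
noncomputable def F (a : ℝ) (z : ℂ) : ℂ := ∫ t in (0 : ℝ)..a, (Phi t : ℂ) * Complex.cos (z * t)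

end Pool.Agent.Lib.MP_c54d0a_an
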