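import Mathlib

/-!
Exact Gaussian rational computations.
-/

namespace Pool.Agent.Lib.MP_c54d0a_an

/-- Gaussian rationals as pairs. -/
abbrev QC : Type := ℚ × ℚ

/-- The complex number of a pair. -/
noncomputable def toC (a : QC) : ℂ := ⟨a.1, a.2⟩

def qadd (a b : QC) : QC := (a.1 + b.1, a.2 + b.2)
def qsub (a b : QC) : QC := (a.1 - b.1, a.2 - b.2)
def qmul (a b : QC) : QC := (a.1 * b.1 - a.2 * b.2, a.1 * b.2 + a.2 * b.1)
def qinv (a : QC) : QC := (a.1 / (a.1 * a.1 + a.2 * a.2), -a.2 / (a.1 * a.1 + a.2 * a.2))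
def qsc (r : ℚ) (a : QC) : QC := (r * a.1, r * a.2)
def qnsq (a : QC) : ℚ := a.1 * a.1 + a.2 * a.2

def qsum (f : ℕ → QC) : ℕ → QC
  | 0 => (0, 0)
  | n + 1 => qadd (qsum f n) (f n)

def qpow (z : QC) : ℕ → QC
  | 0 => (1, 0)
  | n + 1 => qmul (qpow z n) z

lemma toC_add (a b : QC) : toC (qadd a b) = toC a + toC b := by
  apply Complex.ext <;> simp [toC, qadd]

lemma toC_sub (a b : QC) : toC (qsub a b) = toC a - toC b := by
  apply Complex.ext <;> simp [toC, qsub]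

lemma toC_mul (a b : QC) : toC (qmul a b) = toC a * toC b := by
  apply Complex.ext <;> simp [toC, qmul]

lemma toC_inv (a : QC) : toC (qinv a) = (toC a)⁻¹ := by
  apply Complex.ext <;> simp [toC, qinv, Complex.inv_re, Complex.inv_im, Complex.normSq_apply]

lemma toC_sc (r : ℚ) (a : QC) : toC (qsc r a) = (r : ℂ) * toC a := by
  apply Complex.ext <;> simp [toC, qsc]

lemma toC_sum (f : ℕ → QC) (n : ℕ) : toC (qsum f n) = ∑ k ∈ Finset.range n, toC (f k) := by
  induction n with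
  | zero => apply Complex.ext <;> simp [toC, qsum]
  | succ n ih => rw [qsum, toC_add, ih, Finset.sum_range_succ]

lemma toC_pow (z : QC) (n : ℕ) : toC (qpow z n) = toC z ^ n := by
  induction n with
  | zero => apply Complex.ext <;> simp [toC, qpow]
  | succ n ih => rw [qpow, toC_mul, ih, pow_succ]

lemma norm_toC_sq (a : QC) : ‖toC a‖ ^ 2 = (qnsq a : ℝ) := by
  rw [Complex.sq_norm, Complex.normSq_apply]
  simp [toC, qnsq]

lemma norm_toC_le {a : QC} {r : ℚ} (hr : 0 ≤ r) (h : qnsq a ≤ r * r) : ‖toC a‖ ≤ r := by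
  have h1 : ‖toC a‖ ^ 2 ≤ (r : ℝ) ^ 2 := by
    rw [norm_toC_sq, sq]; exact_mod_cast h
  exact (pow_le_pow_iff_left₀ (norm_nonneg _) (by exact_mod_cast hr) two_ne_zero).1 h1

lemma le_norm_toC {a : QC} {r : ℚ} (hr : 0 ≤ r) (h : r * r ≤ qnsq a) : (r : ℝ) ≤ ‖toC a‖ := by
  have h1 : (r : ℝ) ^ 2 ≤ ‖toC a‖ ^ 2 := by
    rw [norm_toC_sq, sq]; exact_mod_cast h
  exact (pow_le_pow_iff_left₀ (by exact_mod_cast hr) (norm_nonneg _) two_ne_zero).1 h1

/-- rational approximation of pi -/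
def pp : ℚ := 314159265358979 / 100000000000000
/-- the exponential of the truncation point -/
def qq : ℚ := 21 / 16
/-- rational approximation of the truncation point -/
def a0 : ℚ := 2719337155 / 10000000000
/-- the approximate zero times the imaginary unit -/
def kp : QC := (-27017 / 10000, 3377 / 125)
/-- its negative -/
def km : QC := (27017 / 10000, -3377 / 125)

def al (k : ℕ) : ℚ := (2 * pp ^ 2 * (-pp) ^ k + 32 * pp ^ 2 * (-(4 * pp)) ^ k) / (k.factorial : ℚ)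
def be (k : ℕ) : ℚ := -(3 * pp * (-pp) ^ k + 12 * pp * (-(4 * pp)) ^ k) / (k.factorial : ℚ)

def LQ (g : ℕ → QC) : QC :=
  qsum (fun k => qadd (qsc (al k) (g (9 + 4 * k))) (qsc (be k) (g (5 + 4 * k)))) 130

def mu (κ : QC) (l : ℕ) : QC := qinv ((l : ℚ) + κ.1, κ.2)

def S1 (κ : QC) : QC := LQ fun l => qsc (qq ^ l) (mu κ l)
def S0 (κ : QC) : QC := LQ fun l => mu κ l
def T1 (κ : QC) : QC := LQ fun l => qsc (qq ^ l) (qmul (mu κ l) (mu κ l))
def T0 (κ : QC) : QC := LQ fun l => qmul (mu κ l) (mu κ l)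

def Eh (κ : QC) : QC := qsum (fun m => qsc (1 / (m.factorial : ℚ)) (qpow (qsc a0 κ) m)) 40

def Uh (κ : QC) : QC := qsub (qmul (Eh κ) (S1 κ)) (S0 κ)
def Vh (κ : QC) : QC := qadd (qsub (qsc a0 (qmul (Eh κ) (S1 κ))) (qmul (Eh κ) (T1 κ))) (T0 κ)

lemma check_A : qnsq (qadd (Uh kp) (Uh km)) ≤ (2 / 100000000) * (2 / 100000000) := by
  decide +kernel

lemma check_B : (356 / 1000000) * (356 / 1000000) ≤ qnsq (qsub (Vh kp) (Vh km)) := by
  decide +kernel

lemma check_S1p : qnsq (S1 kp) ≤ (1 / 1000) * (1 / 1000) := by decide +kernel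
lemma check_S1m : qnsq (S1 km) ≤ (1 / 1000) * (1 / 1000) := by decide +kernel
lemma check_T1p : qnsq (T1 kp) ≤ (1 / 1000) * (1 / 1000) := by decide +kernel
lemma check_T1m : qnsq (T1 km) ≤ (1 / 1000) * (1 / 1000) := by decide +kernel
lemma check_Ep : qnsq (Eh kp) ≤ 3 * 3 := by decide +kernel
lemma check_Em : qnsq (Eh km) ≤ 3 * 3 := by decide +kernel

end Pool.Agent.Lib.MP_c54d0a_an
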