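import Pool.Agent.Lib.MP_c54d0a_an.Defs
import Pool.Agent.Lib.MP_c54d0a_an.Num

/-!
Bounds and a finite exponential sum approximation for the kernel.
-/

namespace Pool.Agent.Lib.MP_c54d0a_an

open Real Finset

noncomputable section

/-- profile -/
def hh (u : ℝ) : ℝ := (2 * u ^ 2 - 3 * u) * exp (-u)

/-- term of the series -/
def term (n : ℕ) (t : ℝ) : ℝ := exp t * hh (((n : ℝ) + 1) ^ 2 * π * exp (4 * t))

/-- the truncation point -/
def aa : ℝ := Real.log (21 / 16)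

lemma exp_aa : exp aa = 21 / 16 := Real.exp_log (by norm_num)

lemma aa_pos : 0 < aa := Real.log_pos (by norm_num)

lemma Phi_eq (t : ℝ) : Phi t = ∑' n, term n t := by
  unfold Phi term hh
  refine tsum_congr fun n => ?_
  have e9 : exp (9 * t) = exp t * exp (4 * t) ^ 2 := by
    rw [← Real.exp_nat_mul, ← Real.exp_add]; congr 1; push_cast; ring
  have e5 : exp (5 * t) = exp t * exp (4 * t) := by
    rw [← Real.exp_add]; congr 1; ring
  rw [e9, e5]; ring

lemma hh_nonneg {u : ℝ} (hu : 3 ≤ u) : 0 ≤ hh u := by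
  unfold hh
  have : 0 ≤ 2 * u ^ 2 - 3 * u := by nlinarith
  positivity

lemma hh_le_exp {u : ℝ} (hu : 0 ≤ u) : hh u ≤ 256 * exp (-(7 / 8 * u)) := by
  unfold hh
  have h1 := Real.quadratic_le_exp_of_nonneg (x := u / 8) (by positivity)
  have h2 : exp (-(7 / 8 * u)) = exp (u / 8) * exp (-u) := by
    rw [← Real.exp_add]; congr 1; ring
  rw [h2, ← mul_assoc]
  refine mul_le_mul_of_nonneg_right ?_ (exp_pos _).le
  nlinarith

lemma exp_nat_ge (n : ℕ) : (2.718 : ℝ) ^ n ≤ exp n := by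
  rw [← Real.exp_one_pow]
  exact pow_le_pow_left₀ (by norm_num) (le_of_lt (lt_trans (by norm_num) Real.exp_one_gt_d9)) n

lemma hh_le_const {u : ℝ} (hu : 3 ≤ u) : hh u ≤ 0.4483 := by
  unfold hh
  have h1 := Real.quadratic_le_exp_of_nonneg (x := u - 3) (by linarith)
  have h3 : (20.079 : ℝ) ≤ exp 3 := by
    have := exp_nat_ge 3
    norm_num at this ⊢
    linarith
  have h2 : exp u = exp 3 * exp (u - 3) := by rw [← Real.exp_add]; congr 1; ring
  rw [Real.exp_neg, ← div_eq_mul_inv, div_le_iff₀ (exp_pos _), h2]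
  have h4 : 20.079 * (1 + (u - 3) + (u - 3) ^ 2 / 2) ≤ exp 3 * exp (u - 3) :=
    mul_le_mul h3 h1 (by positivity) (exp_pos _).le
  nlinarith

lemma exp_bounds {t : ℝ} (ht : t ∈ Set.Icc 0 aa) :
    1 ≤ exp t ∧ exp t ≤ 21 / 16 ∧ 1 ≤ exp (4 * t) ∧ exp (4 * t) ≤ 3 := by
  have h1 : 1 ≤ exp t := Real.one_le_exp ht.1
  have h2 : exp t ≤ 21 / 16 := exp_aa ▸ Real.exp_le_exp.2 ht.2
  have h3 : exp (4 * t) = exp t ^ 4 := by rw [← Real.exp_nat_mul]; norm_num
  refine ⟨h1, h2, Real.one_le_exp (by linarith [ht.1]), ?_⟩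
  rw [h3]
  calc exp t ^ 4 ≤ (21 / 16) ^ 4 := by gcongr
    _ ≤ 3 := by norm_num

lemma arg_ge {t : ℝ} (ht : t ∈ Set.Icc 0 aa) (n : ℕ) :
    3 * ((n : ℝ) + 1) ^ 2 ≤ ((n : ℝ) + 1) ^ 2 * π * exp (4 * t) := by
  obtain ⟨-, -, h3, -⟩ := exp_bounds ht
  have hp := Real.pi_gt_three
  have : 3 * 1 ≤ π * exp (4 * t) := mul_le_mul hp.le h3 (by norm_num) (by linarith)
  have h0 : 0 ≤ ((n : ℝ) + 1) ^ 2 := by positivity
  nlinarith

lemma term_nonneg {t : ℝ} (ht : t ∈ Set.Icc 0 aa) (n : ℕ) : 0 ≤ term n t := by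
  have := arg_ge ht n
  have h0 : 1 ≤ ((n : ℝ) + 1) ^ 2 := one_le_pow₀ (by linarith [Nat.cast_nonneg (α := ℝ) n])
  exact mul_nonneg (exp_pos _).le (hh_nonneg (by linarith))

lemma term_le {t : ℝ} (ht : t ∈ Set.Icc 0 aa) (n : ℕ) :
    term n t ≤ 336 * exp (-(21 / 8 * ((n : ℝ) + 1) ^ 2)) := by
  have h := arg_ge ht n
  obtain ⟨-, h2, -, -⟩ := exp_bounds ht
  have h0 : 0 ≤ ((n : ℝ) + 1) ^ 2 := by positivity
  have h1 := hh_le_exp (u := ((n : ℝ) + 1) ^ 2 * π * exp (4 * t)) (by linarith)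
  have h3 : exp (-(7 / 8 * (((n : ℝ) + 1) ^ 2 * π * exp (4 * t))))
      ≤ exp (-(21 / 8 * ((n : ℝ) + 1) ^ 2)) := Real.exp_le_exp.2 (by linarith)
  unfold term
  calc _ ≤ (21 / 16) * (256 * exp (-(21 / 8 * ((n : ℝ) + 1) ^ 2))) :=
        mul_le_mul h2 (h1.trans (by linarith)) (hh_nonneg (by
          have : 1 ≤ ((n : ℝ) + 1) ^ 2 := one_le_pow₀ (by linarith [Nat.cast_nonneg (α := ℝ) n])
          linarith)) (by norm_num)
    _ = _ := by ring

lemma term_tail_le {t : ℝ} (ht : t ∈ Set.Icc 0 aa) (j : ℕ) :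
    ‖term (j + 2) t‖ ≤ 3.5e-8 * (1 / 2) ^ j := by
  rw [Real.norm_of_nonneg (term_nonneg ht _)]
  refine (term_le ht _).trans ?_
  have h1 : exp (-(21 / 8 * ((((j + 2 : ℕ) : ℝ)) + 1) ^ 2)) ≤ exp (-23) * exp (-1) ^ j := by
    rw [← Real.exp_nat_mul, ← Real.exp_add]
    apply Real.exp_le_exp.2
    push_cast
    have : (0 : ℝ) ≤ j := Nat.cast_nonneg j
    nlinarith
  have h2 : exp (-1) ≤ 1 / 2 := by
    rw [Real.exp_neg, inv_le_comm₀ (exp_pos _) (by norm_num)]
    have := Real.exp_one_gt_d9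
    linarith
  have h3 : exp (-23) ≤ 1.04e-10 := by
    rw [Real.exp_neg, inv_le_comm₀ (exp_pos _) (by norm_num)]
    have := exp_nat_ge 23
    norm_num at this ⊢
    linarith
  have h4 : exp (-23) * exp (-1) ^ j ≤ 1.04e-10 * (1 / 2) ^ j := by gcongr
  have h5 : (0 : ℝ) ≤ (1 / 2) ^ j := by positivity
  nlinarith

lemma summable_tb : Summable fun j : ℕ => (3.5e-8 : ℝ) * (1 / 2) ^ j :=
  summable_geometric_two.mul_left _

lemma Phi_split {t : ℝ} (ht : t ∈ Set.Icc 0 aa) :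
    Phi t = term 0 t + term 1 t + ∑' j, term (j + 2) t := by
  have hs : Summable fun j => term (j + 2) t :=
    Summable.of_norm_bounded summable_tb (term_tail_le ht)
  have hs' : Summable fun n => term n t := (summable_nat_add_iff 2).1 hs
  rw [Phi_eq, ← hs'.sum_add_tsum_nat_add 2]
  simp [Finset.sum_range_succ]

lemma tail_le {t : ℝ} (ht : t ∈ Set.Icc 0 aa) : |∑' j, term (j + 2) t| ≤ 7e-8 := by
  have := tsum_of_norm_bounded (summable_tb.hasSum) (term_tail_le ht)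
  rw [tsum_mul_left, tsum_geometric_two] at this
  rw [← Real.norm_eq_abs]
  linarith

lemma continuous_term (n : ℕ) : Continuous (term n) := by
  unfold term hh
  fun_prop

lemma continuousOn_Phi : ContinuousOn Phi (Set.Icc 0 aa) := by
  have h1 : ContinuousOn (fun t => ∑' j, term (j + 2) t) (Set.Icc 0 aa) :=
    continuousOn_tsum (fun j => (continuous_term _).continuousOn) summable_tb
      fun j t ht => term_tail_le ht j
  exact (((continuous_term 0).continuousOn.add (continuous_term 1).continuousOn).add h1).congr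
    fun t ht => Phi_split ht

lemma abs_Phi_le {t : ℝ} (ht : t ∈ Set.Icc 0 aa) : |Phi t| ≤ 0.61 := by
  rw [Phi_split ht]
  have h0 := term_nonneg ht 0
  have h1 := term_nonneg ht 1
  have h2 := abs_le.1 (tail_le ht)
  obtain ⟨-, e2, -, -⟩ := exp_bounds ht
  have h3 : term 0 t ≤ 21 / 16 * 0.4483 := by
    have := arg_ge ht 0
    unfold term
    refine mul_le_mul e2 (hh_le_const (by simpa using this)) (hh_nonneg (by simpa using this))
      (by norm_num)
  have h4 : term 1 t ≤ 336 * exp (-10) :=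
    (term_le ht 1).trans (mul_le_mul_of_nonneg_left (Real.exp_le_exp.2 (by norm_num)) (by norm_num))
  have h5 : exp (-10) ≤ 4.6e-5 := by
    rw [Real.exp_neg, inv_le_comm₀ (exp_pos _) (by norm_num)]
    have := exp_nat_ge 10
    norm_num at this ⊢
    linarith
  rw [abs_le]
  constructor <;> linarith

lemma approx_hh {u v : ℝ} (hu : 0 ≤ u) (hu' : u ≤ 38) (hv : 0 ≤ v) (hv' : v ≤ 38)
    (huv : |u - v| ≤ 5e-14) :
    |hh u - (2 * v ^ 2 - 3 * v) * ∑ k ∈ range 130, (-v) ^ k / (k.factorial : ℝ)| ≤ 4e-10 := by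
  have hg : |2 * v ^ 2 - 3 * v| ≤ 3100 := by
    rw [abs_le]; constructor <;> nlinarith
  have eu : exp (-u) ≤ 1 := Real.exp_le_one_iff.2 (by linarith)
  have ev : exp (-v) ≤ 1 := Real.exp_le_one_iff.2 (by linarith)
  have h1 : |exp (-v) - ∑ k ∈ range 130, (-v) ^ k / (k.factorial : ℝ)| ≤ 1e-14 := by
    have h := Complex.exp_bound' (x := ((-v : ℝ) : ℂ)) (n := 130) (by
      rw [Complex.norm_real, Real.norm_eq_abs, abs_neg, abs_of_nonneg hv]
      push_cast
      linarith)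
    have e : Complex.exp ((-v : ℝ) : ℂ) - ∑ m ∈ range 130, ((-v : ℝ) : ℂ) ^ m / (m.factorial : ℂ)
        = ((exp (-v) - ∑ k ∈ range 130, (-v) ^ k / (k.factorial : ℝ) : ℝ) : ℂ) := by
      push_cast; rfl
    rw [e, Complex.norm_real, Complex.norm_real, Real.norm_eq_abs, Real.norm_eq_abs, abs_neg,
      abs_of_nonneg hv] at h
    refine h.trans ?_
    calc v ^ 130 / ((130 : ℕ).factorial : ℝ) * 2 ≤ 38 ^ 130 / ((130 : ℕ).factorial : ℝ) * 2 := by
          gcongr
      _ ≤ 1e-14 := by norm_num [Nat.factorial]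
  have h2 : |exp (-u) - exp (-v)| ≤ 1e-13 := by
    have e : exp (-u) - exp (-v) = exp (-v) * (exp (-(u - v)) - 1) := by
      rw [mul_sub, ← Real.exp_add]; congr 1; · congr 1; ring
      · ring
    have h3 := Real.abs_exp_sub_one_le (x := -(u - v)) (by rw [abs_neg]; linarith)
    rw [abs_neg] at h3
    rw [e, abs_mul, abs_of_pos (exp_pos _)]
    calc exp (-v) * |exp (-(u - v)) - 1| ≤ 1 * (2 * 5e-14) :=
          mul_le_mul ev (by linarith) (abs_nonneg _) (by norm_num)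
      _ = 1e-13 := by norm_num
  have h3 : |(2 * u ^ 2 - 3 * u) - (2 * v ^ 2 - 3 * v)| ≤ 1e-11 := by
    have e : (2 * u ^ 2 - 3 * u) - (2 * v ^ 2 - 3 * v) = (u - v) * (2 * (u + v) - 3) := by ring
    rw [e, abs_mul]
    have : |2 * (u + v) - 3| ≤ 160 := by rw [abs_le]; constructor <;> linarith
    calc |u - v| * |2 * (u + v) - 3| ≤ 5e-14 * 160 :=
          mul_le_mul huv this (abs_nonneg _) (by norm_num)
      _ ≤ 1e-11 := by norm_num
  set Sv := ∑ k ∈ range 130, (-v) ^ k / (k.factorial : ℝ)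
  have e : hh u - (2 * v ^ 2 - 3 * v) * Sv
      = ((2 * u ^ 2 - 3 * u) - (2 * v ^ 2 - 3 * v)) * exp (-u)
        + (2 * v ^ 2 - 3 * v) * (exp (-u) - exp (-v)) + (2 * v ^ 2 - 3 * v) * (exp (-v) - Sv) := by
    unfold hh; ring
  rw [e]
  have a1 : |((2 * u ^ 2 - 3 * u) - (2 * v ^ 2 - 3 * v)) * exp (-u)| ≤ 1e-11 * 1 := by
    rw [abs_mul, abs_of_pos (exp_pos _)]
    exact mul_le_mul h3 eu (exp_pos _).le (by norm_num)
  have a2 : |(2 * v ^ 2 - 3 * v) * (exp (-u) - exp (-v))| ≤ 3100 * 1e-13 := by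
    rw [abs_mul]
    exact mul_le_mul hg h2 (abs_nonneg _) (by norm_num)
  have a3 : |(2 * v ^ 2 - 3 * v) * (exp (-v) - Sv)| ≤ 3100 * 1e-14 := by
    rw [abs_mul]
    exact mul_le_mul hg h1 (abs_nonneg _) (by norm_num)
  refine (abs_add_three _ _ _).trans ?_
  norm_num at a1 a2 a3 ⊢
  linarith

/-- The finite exponential sum. -/
def PP (t : ℝ) : ℝ :=
  ∑ k ∈ range 130, ((al k : ℝ) * exp (((9 + 4 * k : ℕ) : ℝ) * t)
    + (be k : ℝ) * exp (((5 + 4 * k : ℕ) : ℝ) * t))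

lemma PP_eq (t : ℝ) : PP t =
    exp t * ((2 * ((pp : ℝ) * exp (4 * t)) ^ 2 - 3 * ((pp : ℝ) * exp (4 * t))) *
      ∑ k ∈ range 130, (-((pp : ℝ) * exp (4 * t))) ^ k / (k.factorial : ℝ))
    + exp t * ((2 * (4 * (pp : ℝ) * exp (4 * t)) ^ 2 - 3 * (4 * (pp : ℝ) * exp (4 * t))) *
      ∑ k ∈ range 130, (-(4 * (pp : ℝ) * exp (4 * t))) ^ k / (k.factorial : ℝ)) := by
  unfold PP
  simp only [Finset.mul_sum, ← Finset.sum_add_distrib]
  refine Finset.sum_congr rfl fun k _ => ?_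
  have e9 : exp (((9 + 4 * k : ℕ) : ℝ) * t) = exp t * exp (4 * t) ^ 2 * exp (4 * t) ^ k := by
    rw [← Real.exp_nat_mul, ← Real.exp_nat_mul, ← Real.exp_add, ← Real.exp_add]
    congr 1; push_cast; ring
  have e5 : exp (((5 + 4 * k : ℕ) : ℝ) * t) = exp t * exp (4 * t) * exp (4 * t) ^ k := by
    rw [← Real.exp_nat_mul, ← Real.exp_add, ← Real.exp_add]
    congr 1; push_cast; ring
  rw [e9, e5, ← neg_mul, ← neg_mul, mul_pow, mul_pow (-(4 * (pp : ℝ)))]
  unfold al be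
  push_cast
  ring

lemma abs_Phi_sub_PP {t : ℝ} (ht : t ∈ Set.Icc 0 aa) : |Phi t - PP t| ≤ 8e-8 := by
  obtain ⟨e1, e2, e3, e4⟩ := exp_bounds ht
  have p1 := Real.pi_gt_d20
  have p2 := Real.pi_lt_d20
  have hp : (pp : ℝ) = 314159265358979 / 100000000000000 := by unfold pp; push_cast; rfl
  set v := exp (4 * t) with hv
  have d1 : |π - (pp : ℝ)| ≤ 4e-15 := by
    rw [hp, abs_le]; constructor <;> linarith
  have h1 := approx_hh (u := π * v) (v := (pp : ℝ) * v) (by positivity) (by nlinarith)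
    (by rw [hp]; positivity) (by rw [hp]; nlinarith) (by
      rw [← sub_mul, abs_mul, abs_of_pos (by linarith : 0 < v)]
      calc |π - (pp : ℝ)| * v ≤ 4e-15 * 3 := mul_le_mul d1 e4 (by linarith) (by norm_num)
        _ ≤ 5e-14 := by norm_num)
  have h2 := approx_hh (u := 4 * π * v) (v := 4 * (pp : ℝ) * v) (by positivity) (by nlinarith)
    (by rw [hp]; positivity) (by rw [hp]; nlinarith) (by
      rw [← sub_mul, ← mul_sub, abs_mul, abs_mul, abs_of_pos (by linarith : 0 < v)]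
      calc |(4 : ℝ)| * |π - (pp : ℝ)| * v ≤ 4 * 4e-15 * 3 := by
            rw [abs_of_pos (by norm_num : (0 : ℝ) < 4)]
            exact mul_le_mul (by linarith) e4 (by linarith) (by norm_num)
        _ ≤ 5e-14 := by norm_num)
  have h3 := tail_le ht
  rw [Phi_split ht, PP_eq]
  have t0 : term 0 t = exp t * hh (π * v) := by simp [term, hv]
  have t1 : term 1 t = exp t * hh (4 * π * v) := by
    simp only [term, hv, Nat.cast_one]; norm_num
  rw [t0, t1, ← hv]
  set X1 := (2 * ((pp : ℝ) * v) ^ 2 - 3 * ((pp : ℝ) * v)) *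
      ∑ k ∈ range 130, (-((pp : ℝ) * v)) ^ k / (k.factorial : ℝ)
  set X2 := (2 * (4 * (pp : ℝ) * v) ^ 2 - 3 * (4 * (pp : ℝ) * v)) *
      ∑ k ∈ range 130, (-(4 * (pp : ℝ) * v)) ^ k / (k.factorial : ℝ)
  set R := ∑' j, term (j + 2) t
  have e : exp t * hh (π * v) + exp t * hh (4 * π * v) + R - (exp t * X1 + exp t * X2)
      = exp t * (hh (π * v) - X1) + exp t * (hh (4 * π * v) - X2) + R := by ring
  rw [e]
  have a1 : |exp t * (hh (π * v) - X1)| ≤ 21 / 16 * 4e-10 := by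
    rw [abs_mul, abs_of_pos (exp_pos _)]
    exact mul_le_mul e2 h1 (abs_nonneg _) (by norm_num)
  have a2 : |exp t * (hh (4 * π * v) - X2)| ≤ 21 / 16 * 4e-10 := by
    rw [abs_mul, abs_of_pos (exp_pos _)]
    exact mul_le_mul e2 h2 (abs_nonneg _) (by norm_num)
  refine (abs_add_three _ _ _).trans ?_
  norm_num at a1 a2 h3 ⊢
  linarith

lemma abs_aa_sub : |aa - (a0 : ℝ)| ≤ 1e-9 := by
  have ha : (a0 : ℝ) = 2719337155 / 10000000000 := by unfold a0; push_cast; rfl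
  rw [ha, abs_le]
  constructor
  · have h := Real.exp_bound' (x := 2719337145 / 10000000000) (by norm_num) (by norm_num) (n := 12)
      (by norm_num)
    have h2 : exp (2719337145 / 10000000000) ≤ 21 / 16 := by
      refine h.trans ?_
      norm_num [Finset.sum_range_succ, Nat.factorial]
    rw [← exp_aa, Real.exp_le_exp] at h2
    linarith
  · have h := Real.sum_le_exp_of_nonneg (x := 2719337165 / 10000000000) (by norm_num) 12
    have h2 : 21 / 16 ≤ exp (2719337165 / 10000000000) := by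
      refine le_trans ?_ h
      norm_num [Finset.sum_range_succ, Nat.factorial]
    rw [← exp_aa, Real.exp_le_exp] at h2
    linarith

end

end Pool.Agent.Lib.MP_c54d0a_an
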