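import Pool.Agent.Lib.MP_c54d0a_an.Kernel

/-!
Certified existence of a non-real zero.
-/

namespace Pool.Agent.Lib.MP_c54d0a_an

open Finset MeasureTheory Complex

noncomputable section

lemma toC_LQ (g : ℕ → QC) : toC (LQ g) = ∑ k ∈ range 130,
    ((al k : ℂ) * toC (g (9 + 4 * k)) + (be k : ℂ) * toC (g (5 + 4 * k))) := by
  unfold LQ
  rw [toC_sum]
  simp only [toC_add, toC_sc]

lemma toC_mu (κ : QC) (l : ℕ) : toC (mu κ l) = ((l : ℂ) + toC κ)⁻¹ := by
  unfold mu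
  rw [toC_inv]
  congr 1
  apply Complex.ext <;> simp [toC]

lemma cexp_nat_aa (l : ℕ) : cexp ((l : ℂ) * (aa : ℂ)) = (qq : ℂ) ^ l := by
  rw [Complex.exp_nat_mul, ← Complex.ofReal_exp, exp_aa]
  unfold qq
  push_cast
  rfl

lemma int0 {κ : ℂ} (hκ : κ.im ≠ 0) (l : ℕ) :
    ∫ t in (0 : ℝ)..aa, cexp ((l : ℂ) * t) * cexp (κ * t)
      = ((qq : ℂ) ^ l * cexp (κ * aa) - 1) * ((l : ℂ) + κ)⁻¹ := by
  have hne : (l : ℂ) + κ ≠ 0 := fun h => hκ (by simpa using congrArg Complex.im h)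
  simp_rw [← Complex.exp_add, ← add_mul]
  rw [integral_exp_mul_complex hne, add_mul, Complex.exp_add, cexp_nat_aa]
  simp [div_eq_mul_inv]

lemma int1 {κ : ℂ} (hκ : κ.im ≠ 0) (l : ℕ) :
    ∫ t in (0 : ℝ)..aa, cexp ((l : ℂ) * t) * (t * cexp (κ * t))
      = aa * ((qq : ℂ) ^ l * cexp (κ * aa)) * ((l : ℂ) + κ)⁻¹
        - ((qq : ℂ) ^ l * cexp (κ * aa) - 1) * (((l : ℂ) + κ)⁻¹ * ((l : ℂ) + κ)⁻¹) := by
  have hne : (l : ℂ) + κ ≠ 0 := fun h => hκ (by simpa using congrArg Complex.im h)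
  set m : ℂ := (l : ℂ) + κ with hm
  have hd : ∀ x : ℝ, HasDerivAt (fun t : ℝ => (t : ℂ) * cexp (m * t) * m⁻¹ - cexp (m * t) * (m⁻¹ * m⁻¹))
      (cexp ((l : ℂ) * x) * (x * cexp (κ * x))) x := by
    intro x
    have h1 : HasDerivAt (fun z : ℂ => z * cexp (m * z) * m⁻¹ - cexp (m * z) * (m⁻¹ * m⁻¹))
        ((1 * cexp (m * x) + x * (cexp (m * x) * (m * 1))) * m⁻¹
          - cexp (m * x) * (m * 1) * (m⁻¹ * m⁻¹)) (x : ℂ) := by
      have h0 : HasDerivAt (fun z : ℂ => cexp (m * z)) (cexp (m * x) * (m * 1)) (x : ℂ) :=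
        ((hasDerivAt_id (x : ℂ)).const_mul m).cexp
      exact (((hasDerivAt_id (x : ℂ)).mul h0).mul_const _).sub (h0.mul_const _)
    refine h1.comp_ofReal.congr_deriv ?_
    have : cexp (m * x) = cexp ((l : ℂ) * x) * cexp (κ * x) := by
      rw [hm, add_mul, Complex.exp_add]
    rw [mul_left_comm (cexp ((l : ℂ) * x)), ← this]
    field_simp
    ring
  rw [intervalIntegral.integral_eq_sub_of_hasDerivAt (fun x _ => hd x)
    (Continuous.intervalIntegrable (by fun_prop) _ _)]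
  have : cexp (m * aa) = (qq : ℂ) ^ l * cexp (κ * aa) := by
    rw [hm, add_mul, Complex.exp_add, cexp_nat_aa]
  rw [this]
  simp
  ring

lemma int_PP {g : ℝ → ℂ} (hg : Continuous g) :
    ∫ t in (0 : ℝ)..aa, (PP t : ℂ) * g t = ∑ k ∈ range 130,
      ((al k : ℂ) * (∫ t in (0 : ℝ)..aa, cexp (((9 + 4 * k : ℕ) : ℂ) * t) * g t)
        + (be k : ℂ) * ∫ t in (0 : ℝ)..aa, cexp (((5 + 4 * k : ℕ) : ℂ) * t) * g t) := by
  have e : ∀ t : ℝ, (PP t : ℂ) * g t = ∑ k ∈ range 130,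
      ((al k : ℂ) * (cexp (((9 + 4 * k : ℕ) : ℂ) * t) * g t)
        + (be k : ℂ) * (cexp (((5 + 4 * k : ℕ) : ℂ) * t) * g t)) := fun t => by
    unfold PP
    rw [Complex.ofReal_sum, Finset.sum_mul]
    refine Finset.sum_congr rfl fun k _ => ?_
    simp only [ofReal_add, ofReal_mul, ofReal_exp, ofReal_ratCast, ofReal_natCast]
    ring
  simp_rw [e]
  rw [intervalIntegral.integral_finsetSum
    (fun k _ => Continuous.intervalIntegrable (by fun_prop) _ _)]
  refine Finset.sum_congr rfl fun k _ => ?_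
  rw [intervalIntegral.integral_add (Continuous.intervalIntegrable (by fun_prop) _ _)
    (Continuous.intervalIntegrable (by fun_prop) _ _), intervalIntegral.integral_const_mul,
    intervalIntegral.integral_const_mul]

lemma U_eq {κ : QC} (hκ : κ.2 ≠ 0) :
    ∫ t in (0 : ℝ)..aa, (PP t : ℂ) * cexp (toC κ * t)
      = cexp (toC κ * aa) * toC (S1 κ) - toC (S0 κ) := by
  have hκ' : (toC κ).im ≠ 0 := by simpa [toC] using hκ
  rw [int_PP (by fun_prop)]
  unfold S1 S0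
  simp only [int0 hκ', toC_LQ, toC_sc, toC_mu, Finset.mul_sum, ← Finset.sum_sub_distrib,
    Rat.cast_pow]
  refine Finset.sum_congr rfl fun k _ => ?_
  ring

lemma V_eq {κ : QC} (hκ : κ.2 ≠ 0) :
    ∫ t in (0 : ℝ)..aa, (PP t : ℂ) * (t * cexp (toC κ * t))
      = aa * (cexp (toC κ * aa) * toC (S1 κ)) - cexp (toC κ * aa) * toC (T1 κ) + toC (T0 κ) := by
  have hκ' : (toC κ).im ≠ 0 := by simpa [toC] using hκ
  rw [int_PP (by fun_prop)]
  unfold S1 T1 T0
  simp only [int1 hκ', toC_LQ, toC_sc, toC_mu, toC_mul, Finset.mul_sum, ← Finset.sum_sub_distrib,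
    ← Finset.sum_add_distrib, Rat.cast_pow]
  refine Finset.sum_congr rfl fun k _ => ?_
  ring

lemma aa_le : aa ≤ 0.272 := by
  have h := abs_le.1 abs_aa_sub
  have ha : (a0 : ℝ) = 2719337155 / 10000000000 := by unfold a0; push_cast; rfl
  rw [ha] at h
  linarith [h.2]

lemma E_approx {κ : QC} (hn : ‖toC κ‖ ≤ 28) (hE : ‖toC (Eh κ)‖ ≤ 3) :
    ‖cexp (toC κ * aa) - toC (Eh κ)‖ ≤ 1e-6 := by
  have ha : (a0 : ℝ) = 2719337155 / 10000000000 := by unfold a0; push_cast; rfl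
  have hz : ‖(a0 : ℂ) * toC κ‖ ≤ 8 := by
    rw [norm_mul, Complex.norm_ratCast, ha, abs_of_pos (by norm_num)]
    nlinarith [norm_nonneg (toC κ)]
  have h1 : ‖cexp ((a0 : ℂ) * toC κ) - toC (Eh κ)‖ ≤ 1e-11 := by
    have h := Complex.exp_bound' (x := (a0 : ℂ) * toC κ) (n := 40) (by push_cast; linarith)
    have e : toC (Eh κ) = ∑ m ∈ range 40, ((a0 : ℂ) * toC κ) ^ m / (m.factorial : ℂ) := by
      unfold Eh
      rw [toC_sum]
      refine Finset.sum_congr rfl fun m _ => ?_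
      rw [toC_sc, toC_pow, toC_sc]
      push_cast
      ring
    rw [e]
    refine h.trans ?_
    calc ‖(a0 : ℂ) * toC κ‖ ^ 40 / ((40 : ℕ).factorial : ℝ) * 2
        ≤ 8 ^ 40 / ((40 : ℕ).factorial : ℝ) * 2 := by gcongr
      _ ≤ 1e-11 := by norm_num [Nat.factorial]
  have hd : ‖toC κ * ((aa : ℂ) - (a0 : ℂ))‖ ≤ 28e-9 := by
    have : (aa : ℂ) - (a0 : ℂ) = ((aa - (a0 : ℝ) : ℝ) : ℂ) := by push_cast; rfl
    rw [norm_mul, this, Complex.norm_real, Real.norm_eq_abs]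
    calc ‖toC κ‖ * |aa - (a0 : ℝ)| ≤ 28 * 1e-9 :=
          mul_le_mul hn abs_aa_sub (abs_nonneg _) (by norm_num)
      _ = 28e-9 := by norm_num
  have h2 := Complex.norm_exp_sub_one_le (x := toC κ * ((aa : ℂ) - (a0 : ℂ))) (by linarith)
  have h3 : ‖cexp ((a0 : ℂ) * toC κ)‖ ≤ 4 := by
    have := norm_sub_norm_le (cexp ((a0 : ℂ) * toC κ)) (toC (Eh κ))
    linarith
  have e : cexp (toC κ * aa) - toC (Eh κ)
      = cexp ((a0 : ℂ) * toC κ) * (cexp (toC κ * ((aa : ℂ) - (a0 : ℂ))) - 1)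
        + (cexp ((a0 : ℂ) * toC κ) - toC (Eh κ)) := by
    rw [mul_sub, ← Complex.exp_add]
    have : (a0 : ℂ) * toC κ + toC κ * ((aa : ℂ) - (a0 : ℂ)) = toC κ * aa := by ring
    rw [this]; ring
  rw [e]
  refine (norm_add_le _ _).trans ?_
  rw [norm_mul]
  have : ‖cexp ((a0 : ℂ) * toC κ)‖ * ‖cexp (toC κ * ((aa : ℂ) - (a0 : ℂ))) - 1‖ ≤ 4 * (2 * 28e-9) :=
    mul_le_mul h3 (by linarith) (norm_nonneg _) (by norm_num)
  norm_num at this h1 ⊢
  linarith

lemma intInt {g : ℝ → ℂ} (hg : Continuous g) :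
    IntervalIntegrable (fun t => (Phi t : ℂ) * g t) volume 0 aa := by
  apply ContinuousOn.intervalIntegrable
  rw [Set.uIcc_of_le aa_pos.le]
  exact (Complex.continuous_ofReal.comp_continuousOn continuousOn_Phi).mul hg.continuousOn

lemma continuous_PP : Continuous PP := by
  unfold PP
  fun_prop

lemma int_Phi_sub_PP {g : ℝ → ℂ} (hg : Continuous g) {C : ℝ}
    (hC : ∀ t ∈ Set.Icc 0 aa, ‖g t‖ ≤ C) :
    ‖(∫ t in (0 : ℝ)..aa, (Phi t : ℂ) * g t) - ∫ t in (0 : ℝ)..aa, (PP t : ℂ) * g t‖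
      ≤ 8e-8 * C * 0.272 := by
  have hC0 : 0 ≤ C := (norm_nonneg _).trans (hC 0 ⟨le_rfl, aa_pos.le⟩)
  have hPP : IntervalIntegrable (fun t => (PP t : ℂ) * g t) volume 0 aa :=
    ((Complex.continuous_ofReal.comp continuous_PP).mul hg).intervalIntegrable _ _
  rw [← intervalIntegral.integral_sub (intInt hg) hPP]
  refine (intervalIntegral.norm_integral_le_of_norm_le_const (C := 8e-8 * C) fun t ht => ?_).trans ?_
  · rw [Set.uIoc_of_le aa_pos.le] at ht
    have ht' : t ∈ Set.Icc 0 aa := ⟨ht.1.le, ht.2⟩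
    rw [← sub_mul, norm_mul, ← Complex.ofReal_sub, Complex.norm_real, Real.norm_eq_abs]
    exact mul_le_mul (abs_Phi_sub_PP ht') (hC t ht') (norm_nonneg _) (by norm_num)
  · rw [sub_zero, abs_of_pos aa_pos]
    exact mul_le_mul_of_nonneg_left aa_le (by positivity)

lemma norm_cexp_le {κ : ℂ} (hκ : κ.re ≤ 2.7017) {t : ℝ} (ht : t ∈ Set.Icc 0 aa) :
    ‖cexp (κ * t)‖ ≤ 2.1 := by
  rw [Complex.norm_exp]
  have h1 : (κ * t).re ≤ 0.735 := by
    simp only [mul_re, ofReal_re, ofReal_im, mul_zero, sub_zero]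
    have := ht.2.trans aa_le
    nlinarith [ht.1]
  refine (Real.exp_le_exp.2 h1).trans ?_
  refine (Real.exp_bound' (x := 0.735) (by norm_num) (by norm_num) (n := 4) (by norm_num)).trans ?_
  norm_num [Finset.sum_range_succ, Nat.factorial]

lemma U_approx {κ : QC} (hκ : κ.2 ≠ 0) (hre : (toC κ).re ≤ 2.7017) (hn : ‖toC κ‖ ≤ 28)
    (hE : ‖toC (Eh κ)‖ ≤ 3) (hS : ‖toC (S1 κ)‖ ≤ 1 / 1000) :
    ‖(∫ t in (0 : ℝ)..aa, (Phi t : ℂ) * cexp (toC κ * t)) - toC (Uh κ)‖ ≤ 4.7e-8 := by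
  have h1 := int_Phi_sub_PP (g := fun t => cexp (toC κ * t)) (by fun_prop)
    (fun t ht => norm_cexp_le hre ht)
  rw [U_eq hκ] at h1
  have h2 := E_approx hn hE
  have h3 : ‖(cexp (toC κ * aa) - toC (Eh κ)) * toC (S1 κ)‖ ≤ 1e-6 * (1 / 1000) := by
    rw [norm_mul]
    exact mul_le_mul h2 hS (norm_nonneg _) (by norm_num)
  have e : (∫ t in (0 : ℝ)..aa, (Phi t : ℂ) * cexp (toC κ * t)) - toC (Uh κ)
      = ((∫ t in (0 : ℝ)..aa, (Phi t : ℂ) * cexp (toC κ * t))
        - (cexp (toC κ * aa) * toC (S1 κ) - toC (S0 κ)))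
        + (cexp (toC κ * aa) - toC (Eh κ)) * toC (S1 κ) := by
    unfold Uh
    rw [toC_sub, toC_mul]
    ring
  rw [e]
  refine (norm_add_le _ _).trans ?_
  norm_num at h1 h3 ⊢
  linarith

lemma V_approx {κ : QC} (hκ : κ.2 ≠ 0) (hre : (toC κ).re ≤ 2.7017) (hn : ‖toC κ‖ ≤ 28)
    (hE : ‖toC (Eh κ)‖ ≤ 3) (hS : ‖toC (S1 κ)‖ ≤ 1 / 1000) (hT : ‖toC (T1 κ)‖ ≤ 1 / 1000) :
    ‖(∫ t in (0 : ℝ)..aa, (Phi t : ℂ) * (t * cexp (toC κ * t))) - toC (Vh κ)‖ ≤ 5e-8 := by
  have h1 := int_Phi_sub_PP (g := fun t => t * cexp (toC κ * t)) (C := 1 * 2.1) (by fun_prop)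
    (fun t ht => by
      rw [norm_mul, Complex.norm_real, Real.norm_of_nonneg ht.1]
      exact mul_le_mul (by linarith [ht.2, aa_le]) (norm_cexp_le hre ht) (norm_nonneg _)
        (by norm_num))
  rw [V_eq hκ] at h1
  have h2 := E_approx hn hE
  have h3 : ‖(cexp (toC κ * aa) - toC (Eh κ)) * toC (S1 κ)‖ ≤ 1e-6 * (1 / 1000) := by
    rw [norm_mul]
    exact mul_le_mul h2 hS (norm_nonneg _) (by norm_num)
  have h4 : ‖(cexp (toC κ * aa) - toC (Eh κ)) * toC (T1 κ)‖ ≤ 1e-6 * (1 / 1000) := by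
    rw [norm_mul]
    exact mul_le_mul h2 hT (norm_nonneg _) (by norm_num)
  have h5 : ‖(aa : ℂ) * ((cexp (toC κ * aa) - toC (Eh κ)) * toC (S1 κ))‖
      ≤ 1 * (1e-6 * (1 / 1000)) := by
    rw [norm_mul, Complex.norm_real, Real.norm_of_nonneg aa_pos.le]
    exact mul_le_mul (by linarith [aa_le]) h3 (norm_nonneg _) (by norm_num)
  have h6 : ‖((aa : ℂ) - (a0 : ℂ)) * (toC (Eh κ) * toC (S1 κ))‖ ≤ 1e-9 * (3 * (1 / 1000)) := by
    have : (aa : ℂ) - (a0 : ℂ) = ((aa - (a0 : ℝ) : ℝ) : ℂ) := by push_cast; rfl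
    rw [norm_mul, this, Complex.norm_real, Real.norm_eq_abs, norm_mul]
    exact mul_le_mul abs_aa_sub (mul_le_mul hE hS (norm_nonneg _) (by norm_num))
      (by positivity) (by norm_num)
  have e : (∫ t in (0 : ℝ)..aa, (Phi t : ℂ) * (t * cexp (toC κ * t))) - toC (Vh κ)
      = ((∫ t in (0 : ℝ)..aa, (Phi t : ℂ) * (t * cexp (toC κ * t)))
        - (aa * (cexp (toC κ * aa) * toC (S1 κ)) - cexp (toC κ * aa) * toC (T1 κ) + toC (T0 κ)))
        + (aa : ℂ) * ((cexp (toC κ * aa) - toC (Eh κ)) * toC (S1 κ))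
        + ((aa : ℂ) - (a0 : ℂ)) * (toC (Eh κ) * toC (S1 κ))
        - (cexp (toC κ * aa) - toC (Eh κ)) * toC (T1 κ) := by
    unfold Vh
    rw [toC_add, toC_sub, toC_sc, toC_mul, toC_mul]
    ring
  rw [e]
  refine (norm_sub_le _ _).trans ?_
  have := norm_add₃_le (a := (∫ t in (0 : ℝ)..aa, (Phi t : ℂ) * (t * cexp (toC κ * t)))
        - (aa * (cexp (toC κ * aa) * toC (S1 κ)) - cexp (toC κ * aa) * toC (T1 κ) + toC (T0 κ)))
    (b := (aa : ℂ) * ((cexp (toC κ * aa) - toC (Eh κ)) * toC (S1 κ)))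
    (c := ((aa : ℂ) - (a0 : ℂ)) * (toC (Eh κ) * toC (S1 κ)))
  have n1 : (8e-8 : ℝ) * (1 * 2.1) * 0.272 + 1 * (1e-6 * (1 / 1000)) + 1e-9 * (3 * (1 / 1000))
      + 1e-6 * (1 / 1000) ≤ 5e-8 := by norm_num
  linarith

lemma differentiable_F : Differentiable ℂ (F aa) := by
  intro z₀
  have hm : ∀ {g : ℝ → ℂ}, Continuous g →
      AEStronglyMeasurable (fun t => (Phi t : ℂ) * g t) (volume.restrict (Set.uIoc 0 aa)) :=
    fun hg => (intervalIntegrable_iff.1 (intInt hg)).aestronglyMeasurable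
  have h := intervalIntegral.hasDerivAt_integral_of_dominated_loc_of_deriv_le (μ := volume)
    (a := 0) (b := aa) (F := fun (z : ℂ) (t : ℝ) => (Phi t : ℂ) * Complex.cos (z * t))
    (F' := fun (z : ℂ) (t : ℝ) => (Phi t : ℂ) * (-Complex.sin (z * t) * t)) (x₀ := z₀)
    (s := Metric.ball z₀ 1) (bound := fun _ => Real.exp (‖z₀‖ + 1))
    (Metric.ball_mem_nhds z₀ one_pos)
    (Filter.Eventually.of_forall fun z => hm (by fun_prop)) (intInt (by fun_prop))
    (hm (by fun_prop)) (Filter.Eventually.of_forall fun t ht z hz => ?_)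
    intervalIntegrable_const (Filter.Eventually.of_forall fun t _ z _ => ?_)
  · exact h.2.differentiableAt
  · rw [Set.uIoc_of_le aa_pos.le] at ht
    have ht' : t ∈ Set.Icc 0 aa := ⟨ht.1.le, ht.2⟩
    have ht1 : t ≤ 1 := by linarith [ht.2, aa_le]
    have hz' : ‖z‖ ≤ ‖z₀‖ + 1 := by
      have := norm_sub_norm_le z z₀
      rw [Metric.mem_ball, dist_eq_norm] at hz
      linarith
    have hzt : ‖z * t‖ ≤ ‖z₀‖ + 1 := by
      rw [norm_mul, Complex.norm_real, Real.norm_of_nonneg ht'.1]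
      nlinarith [norm_nonneg z, ht'.1]
    have hs : ‖Complex.sin (z * t)‖ ≤ Real.exp (‖z₀‖ + 1) := by
      have b1 : ∀ w : ℂ, ‖w‖ ≤ ‖z₀‖ + 1 → ‖cexp w‖ ≤ Real.exp (‖z₀‖ + 1) := fun w hw =>
        (Complex.norm_exp_le_exp_norm w).trans (Real.exp_le_exp.2 hw)
      have b2 := b1 (-(z * t) * I) (by simpa using hzt)
      have b3 := b1 ((z * t) * I) (by simpa using hzt)
      have b4 := norm_sub_le (cexp (-(z * t) * I)) (cexp ((z * t) * I))
      rw [Complex.sin, norm_div, norm_mul, Complex.norm_I, mul_one, Complex.norm_two]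
      linarith
    rw [norm_mul, norm_mul, norm_neg, Complex.norm_real, Complex.norm_real, Real.norm_eq_abs,
      Real.norm_of_nonneg ht'.1]
    have hP := abs_Phi_le ht'
    calc |Phi t| * (‖Complex.sin (z * t)‖ * t) ≤ 1 * (Real.exp (‖z₀‖ + 1) * 1) :=
          mul_le_mul (by linarith) (mul_le_mul hs ht1 ht'.1 (by positivity))
            (mul_nonneg (norm_nonneg _) ht'.1) (by norm_num)
      _ = _ := by ring
  · have := (((hasDerivAt_id z).mul_const (t : ℂ)).ccos).const_mul (Phi t : ℂ)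
    simpa using this

/-- The approximate zero. -/
def cc : ℂ := ⟨3377 / 125, 27017 / 10000⟩

lemma toC_kp : toC kp = cc * I := by
  apply Complex.ext <;> simp [toC, kp, cc] <;> norm_num

lemma toC_km : toC km = -cc * I := by
  apply Complex.ext <;> simp [toC, km, cc] <;> norm_num

lemma expansion {w : ℂ} (hw : ‖w‖ ≤ 1 / 300) :
    ‖F aa (cc + w)
      - ((∫ t in (0 : ℝ)..aa, (Phi t : ℂ) * cexp (toC kp * t))
        + ∫ t in (0 : ℝ)..aa, (Phi t : ℂ) * cexp (toC km * t)) / 2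
      - I * w / 2 * ((∫ t in (0 : ℝ)..aa, (Phi t : ℂ) * (t * cexp (toC kp * t)))
        - ∫ t in (0 : ℝ)..aa, (Phi t : ℂ) * (t * cexp (toC km * t)))‖ ≤ 0.0258 * ‖w‖ ^ 2 := by
  have i1 := intInt (g := fun t => Complex.cos ((cc + w) * t)) (by fun_prop)
  have i2 := intInt (g := fun t => cexp (toC kp * t)) (by fun_prop)
  have i3 := intInt (g := fun t => cexp (toC km * t)) (by fun_prop)
  have i4 := intInt (g := fun t => t * cexp (toC kp * t)) (by fun_prop)
  have i5 := intInt (g := fun t => t * cexp (toC km * t)) (by fun_prop)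
  unfold F
  rw [← intervalIntegral.integral_add i2 i3, ← intervalIntegral.integral_sub i4 i5,
    ← intervalIntegral.integral_div, ← intervalIntegral.integral_const_mul,
    ← intervalIntegral.integral_sub i1 ((i2.add i3).div_const 2),
    ← intervalIntegral.integral_sub (i1.sub ((i2.add i3).div_const 2)) ((i4.sub i5).const_mul _)]
  refine (intervalIntegral.norm_integral_le_of_norm_le_const
    (C := 0.61 * (2.1 * (‖w‖ * 0.272) ^ 2)) fun t ht => ?_).trans ?_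
  · rw [Set.uIoc_of_le aa_pos.le] at ht
    have ht' : t ∈ Set.Icc 0 aa := ⟨ht.1.le, ht.2⟩
    have hta : t ≤ 0.272 := ht.2.trans aa_le
    have e : (Phi t : ℂ) * Complex.cos ((cc + w) * t)
        - ((Phi t : ℂ) * cexp (toC kp * t) + (Phi t : ℂ) * cexp (toC km * t)) / 2
        - I * w / 2 * ((Phi t : ℂ) * (t * cexp (toC kp * t)) - (Phi t : ℂ) * (t * cexp (toC km * t)))
        = (Phi t : ℂ) * ((cexp (toC kp * t) * (cexp (I * w * t) - 1 - I * w * t)
          + cexp (toC km * t) * (cexp (-(I * w * t)) - 1 - -(I * w * t))) / 2) := by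
      have e1 : cexp ((cc + w) * t * I) = cexp (toC kp * t) * cexp (I * w * t) := by
        rw [← Complex.exp_add, toC_kp]; congr 1; ring
      have e2 : cexp (-((cc + w) * t) * I) = cexp (toC km * t) * cexp (-(I * w * t)) := by
        rw [← Complex.exp_add, toC_km]; congr 1; ring
      rw [Complex.cos, e1, e2]
      ring
    rw [e, norm_mul, Complex.norm_real, Real.norm_eq_abs]
    refine mul_le_mul (abs_Phi_le ht') ?_ (norm_nonneg _) (by norm_num)
    have n1 : ‖I * w * t‖ ≤ ‖w‖ * 0.272 := by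
      rw [norm_mul, norm_mul, Complex.norm_I, one_mul, Complex.norm_real, Real.norm_of_nonneg ht'.1]
      exact mul_le_mul_of_nonneg_left hta (norm_nonneg _)
    have n2 : ‖I * w * t‖ ≤ 1 := by linarith
    have n3 : ‖I * w * t‖ ^ 2 ≤ (‖w‖ * 0.272) ^ 2 := by gcongr
    have r1 := (Complex.norm_exp_sub_one_sub_id_le n2).trans n3
    have r2 := Complex.norm_exp_sub_one_sub_id_le (x := -(I * w * t)) (by rwa [norm_neg])
    rw [norm_neg] at r2
    replace r2 := r2.trans n3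
    have b1 := norm_cexp_le (κ := toC kp) (by simp [toC, kp]; norm_num) ht'
    have b2 := norm_cexp_le (κ := toC km) (by simp [toC, km]; norm_num) ht'
    have c1 := mul_le_mul b1 r1 (norm_nonneg _) (by norm_num)
    have c2 := mul_le_mul b2 r2 (norm_nonneg _) (by norm_num)
    rw [← norm_mul] at c1 c2
    rw [norm_div, Complex.norm_two]
    have := norm_add_le (cexp (toC kp * t) * (cexp (I * w * t) - 1 - I * w * t))
      (cexp (toC km * t) * (cexp (-(I * w * t)) - 1 - -(I * w * t)))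
    linarith
  · rw [sub_zero, abs_of_pos aa_pos]
    have := aa_le
    have h0 : 0 ≤ ‖w‖ ^ 2 := by positivity
    nlinarith

theorem exists_zero : ∃ z ∈ Metric.closedBall cc (1 / 300), F aa z = 0 := by
  have np : ‖toC kp‖ ≤ 28 := by
    exact_mod_cast norm_toC_le (a := kp) (r := 28) (by norm_num) (by decide +kernel)
  have nm : ‖toC km‖ ≤ 28 := by
    exact_mod_cast norm_toC_le (a := km) (r := 28) (by norm_num) (by decide +kernel)
  have Ep : ‖toC (Eh kp)‖ ≤ 3 := by exact_mod_cast norm_toC_le (by norm_num) check_Ep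
  have Em : ‖toC (Eh km)‖ ≤ 3 := by exact_mod_cast norm_toC_le (by norm_num) check_Em
  have Sp : ‖toC (S1 kp)‖ ≤ 1 / 1000 := by
    simpa using norm_toC_le (by norm_num) check_S1p
  have Sm : ‖toC (S1 km)‖ ≤ 1 / 1000 := by
    simpa using norm_toC_le (by norm_num) check_S1m
  have Tp : ‖toC (T1 kp)‖ ≤ 1 / 1000 := by
    simpa using norm_toC_le (by norm_num) check_T1p
  have Tm : ‖toC (T1 km)‖ ≤ 1 / 1000 := by
    simpa using norm_toC_le (by norm_num) check_T1m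
  have hp2 : kp.2 ≠ 0 := by decide +kernel
  have hm2 : km.2 ≠ 0 := by decide +kernel
  have rp : (toC kp).re ≤ 2.7017 := by simp [toC, kp]; norm_num
  have rm : (toC km).re ≤ 2.7017 := by simp [toC, km]; norm_num
  have u1 := U_approx hp2 rp np Ep Sp
  have u2 := U_approx hm2 rm nm Em Sm
  have v1 := V_approx hp2 rp np Ep Sp Tp
  have v2 := V_approx hm2 rm nm Em Sm Tm
  have cA : ‖toC (Uh kp) + toC (Uh km)‖ ≤ 2 / 100000000 := by
    have := norm_toC_le (by norm_num) check_A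
    rw [toC_add] at this
    simpa using this
  have cB : 356 / 1000000 ≤ ‖toC (Vh kp) - toC (Vh km)‖ := by
    have := le_norm_toC (by norm_num) check_B
    rw [toC_sub] at this
    simpa using this
  have hexp := fun w hw => expansion (w := w) hw
  set U1 := ∫ t in (0 : ℝ)..aa, (Phi t : ℂ) * cexp (toC kp * t)
  set U2 := ∫ t in (0 : ℝ)..aa, (Phi t : ℂ) * cexp (toC km * t)
  set V1 := ∫ t in (0 : ℝ)..aa, (Phi t : ℂ) * (t * cexp (toC kp * t))
  set V2 := ∫ t in (0 : ℝ)..aa, (Phi t : ℂ) * (t * cexp (toC km * t))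
  have hA : ‖(U1 + U2) / 2‖ ≤ 6e-8 := by
    have e : U1 + U2 = (U1 - toC (Uh kp)) + (U2 - toC (Uh km)) + (toC (Uh kp) + toC (Uh km)) := by
      ring
    have := norm_add₃_le (a := U1 - toC (Uh kp)) (b := U2 - toC (Uh km))
      (c := toC (Uh kp) + toC (Uh km))
    rw [norm_div, Complex.norm_two, e]
    norm_num at u1 u2 ⊢
    linarith
  have hB : 355 / 1000000 ≤ ‖V1 - V2‖ := by
    have e : toC (Vh kp) - toC (Vh km) = (V1 - V2) + -(V1 - toC (Vh kp)) + (V2 - toC (Vh km)) := by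
      ring
    have := norm_add₃_le (a := V1 - V2) (b := -(V1 - toC (Vh kp))) (c := V2 - toC (Vh km))
    rw [← e, norm_neg] at this
    norm_num at v1 v2 ⊢
    linarith
  have h0 : ‖F aa cc‖ ≤ 6e-8 := by
    have := hexp 0 (by norm_num)
    simp only [add_zero, mul_zero, zero_div, zero_mul, sub_zero, norm_zero] at this
    have h2 : F aa cc = (U1 + U2) / 2 := by
      rw [← sub_eq_zero, ← norm_le_zero_iff]
      simpa using this
    rw [h2]; exact hA
  have hs : ∀ z ∈ Metric.sphere cc (1 / 300), 2e-7 ≤ ‖F aa z‖ := by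
    intro z hz
    rw [mem_sphere_iff_norm] at hz
    have h1 := hexp (z - cc) hz.le
    rw [add_sub_cancel, hz] at h1
    have h2 : ‖I * (z - cc) / 2 * (V1 - V2)‖ = 1 / 600 * ‖V1 - V2‖ := by
      rw [norm_mul, norm_div, norm_mul, Complex.norm_I, hz, Complex.norm_two]
      ring
    have e : I * (z - cc) / 2 * (V1 - V2)
        = F aa z + -((U1 + U2) / 2) + -(F aa z - (U1 + U2) / 2 - I * (z - cc) / 2 * (V1 - V2)) := by
      ring
    have h3 := norm_add₃_le (a := F aa z) (b := -((U1 + U2) / 2))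
      (c := -(F aa z - (U1 + U2) / 2 - I * (z - cc) / 2 * (V1 - V2)))
    rw [← e, h2, norm_neg, norm_neg] at h3
    have n1 : (2e-7 : ℝ) + 6e-8 + 0.0258 * (1 / 300) ^ 2 ≤ 1 / 600 * (355 / 1000000) := by norm_num
    linarith
  by_contra hcon
  push Not at hcon
  have hd : DiffContOnCl ℂ (fun z => (F aa z)⁻¹) (Metric.ball cc (1 / 300)) := by
    apply DifferentiableOn.diffContOnCl
    rw [closure_ball cc (by norm_num)]
    exact differentiable_F.differentiableOn.inv hcon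
  have h1 := Complex.norm_le_of_forall_mem_frontier_norm_le (C := (2e-7 : ℝ)⁻¹) Metric.isBounded_ball hd
    (fun z hz => by
      rw [frontier_ball cc (by norm_num)] at hz
      rw [norm_inv]
      exact inv_anti₀ (by norm_num) (hs z hz))
    (z := cc) (subset_closure (Metric.mem_ball_self (by norm_num)))
  have hne : 0 < ‖F aa cc‖ := norm_pos_iff.2 (hcon cc (Metric.mem_closedBall_self (by norm_num)))
  rw [norm_inv, inv_le_inv₀ hne (by norm_num)] at h1
  norm_num at h0 h1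
  linarith

end

end Pool.Agent.Lib.MP_c54d0a_an
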